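import Pool.Agent.Q56.IC.Main

/-!
# MP_710d87_nt: every icube in `ℤ^8` extends to an `8`-icube

Idea of the proof. Work modulo the norm `λ`. Let `T` be the image of a `λ`-similarity of `ℤ^8`
(two copies of a quaternion of norm `λ`, Lagrange), which is its own annihilator modulo `λ`, let `V`
be spanned by the given vectors and `P` the annihilator of `V` modulo `λ`.  Then
`U = (T ∩ P) + V` is again its own annihilator modulo `λ`.  Rescaled by `1/λ`, the lattice `U` is
unimodular and contains the given vectors as orthonormal vectors, so the part of `U` orthogonal to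
them is a unimodular lattice of rank `8 - k ≤ 7`; by Blichfeldt's averaging argument it contains a
vector of norm one, that is, an integer vector of norm `λ` orthogonal to the given ones.
-/

set_option autoImplicit false

namespace Pool.Agent.Results.MP_710d87_nt.IcubesExtend

open Matrix

/-- The vectors `v 0, …, v (k - 1)` of `ℤ^8` form a `k`-icube of norm `lam`: they are pairwise
orthogonal and all have squared length `lam > 0`. -/
def IsIcube {k : ℕ} (lam : ℤ) (v : Fin k → Fin 8 → ℤ) : Prop :=
  0 < lam ∧ ∀ i j, v i ⬝ᵥ v j = if i = j then lam else 0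

/-- For every `1 ≤ k ≤ 8`, every `k`-icube in `ℤ^8` extends to an `8`-icube (of the same norm),
whose first `k` columns are the given ones. -/
theorem result (k : ℕ) (hk1 : 1 ≤ k) (hk8 : k ≤ 8) (lam : ℤ) (v : Fin k → Fin 8 → ℤ)
    (hv : IsIcube lam v) :
    ∃ u : Fin 8 → Fin 8 → ℤ, IsIcube lam u ∧ ∀ i : Fin k, u (Fin.castLE hk8 i) = v i := by
  obtain ⟨u, hu, huv⟩ :=
    Pool.Agent.Q56.IC.extends_main (8 - k) hk1 (by omega) lam hv.1 v hv.2
  exact ⟨u, ⟨hv.1, hu⟩, huv⟩

end Pool.Agent.Results.MP_710d87_nt.IcubesExtend
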